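import Pool.Agent.Helper52.SG.Goals

/-!
The class `LG` is closed under extensions with a good kernel.
-/

set_option autoImplicit false

namespace Pool.Agent.Helper70.SG.LGE

open Subgroup Pool.H83Shunkov Pool.Agent.Helper29.SH Pool.Agent.Helper52.SG

theorem iq_of_surjective {A B : Type} [Group A] [Group B] (π : A →* B)
    (hπ : Function.Surjective π) (h : IQ B) : IQ A := by
  obtain ⟨R, hR, hinf, hrf⟩ := h
  refine ⟨R.comap π, hR.comap π, ?_, ?_⟩
  · refine Infinite.of_surjective (QuotientGroup.map (R.comap π) R π le_rfl) ?_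
    intro y
    obtain ⟨b, rfl⟩ := QuotientGroup.mk_surjective y
    obtain ⟨a, rfl⟩ := hπ b
    exact ⟨QuotientGroup.mk a, rfl⟩
  · intro x hx
    obtain ⟨M, hM, hMf, hRM, hxM⟩ := hrf (π x) hx
    refine ⟨M.comap π, hM.comap π, ⟨?_⟩, comap_mono hRM, hxM⟩
    rw [Subgroup.index_comap_of_surjective M hπ]
    exact hMf.index_ne_zero

theorem pg_of_surjective {A B : Type} [Group A] [Group B] (π : A →* B)
    (hπ : Function.Surjective π) (h : PG A) : PG B := by
  classical
  obtain ⟨S, hS, hpf⟩ := h
  refine ⟨S.image π, ?_, ?_⟩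
  · rw [Finset.coe_image, ← MonoidHom.map_closure, hS, ← MonoidHom.range_eq_map,
      MonoidHom.range_eq_top.mpr hπ]
  · intro s hs
    obtain ⟨a, ha, rfl⟩ := Finset.mem_image.mp hs
    exact (hpf a ha).map π hπ

theorem finite_of_X {A : Type} [Group A] (h : PG A) (hX : X A) : Finite A := by
  obtain ⟨S, hS, hpf⟩ := h
  have h1 : (lfRad A) = ⊤ := by
    rw [eq_top_iff, ← hS, closure_le]
    intro s hs
    exact hX s (hpf s hs)
  have h2 : IsLocFin (⊤ : Subgroup A) := by
    rw [← h1]
    exact isLocFin_lfRad
  have h3 := h2.finite_of_fg ⟨S, hS⟩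
  exact Set.finite_univ_iff.mp h3

theorem t : S_LGE := by
  intro G H _ _ f hf hG K hK hinf
  let f' : K →* G := f.comp K.subtype
  have hs := f'.rangeRestrict_surjective
  by_cases hL : Infinite f'.range
  · exact iq_of_surjective f'.rangeRestrict hs (hG f'.range (pg_of_surjective _ hs hK) hL)
  · exfalso
    have hfin : Finite f'.range := not_infinite_iff_finite.mp hL
    have hfi : f'.ker.FiniteIndex := inferInstance
    let φ : f'.ker →* (Unit → f.ker) :=
      { toFun := fun x _ => ⟨x.1.1, x.2⟩
        map_one' := rfl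
        map_mul' := fun _ _ => rfl }
    have hφ : Function.Injective φ := by
      intro x y hxy
      have h1 := congrFun hxy ()
      have h2 : ((x : K) : H) = ((y : K) : H) := congrArg (fun z : f.ker => (z : H)) h1
      exact Subtype.ext (Subtype.ext h2)
    have hX : X K := hf K f'.ker hfi Unit φ hφ
    have := finite_of_X hK hX
    exact not_finite K

end Pool.Agent.Helper70.SG.LGE
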