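import Pool.Agent.Helper52.SG.Goals3

/-!
The associated Lie ring of the lower central series.
-/

set_option autoImplicit false

namespace Pool.Agent.Helper70.SG.LIEB

open Subgroup Pool.Agent.Helper52.SG
open scoped commutatorElement

variable (B : Type) [Group B]

/-- the relations -/
def Rl : AddSubgroup (FreeAbelianGroup (ℕ × B)) :=
  AddSubgroup.closure ({z | ∃ n x y, x ∈ Gm B n ∧ y ∈ Gm B n ∧
      z = FreeAbelianGroup.of (n, x * y) - FreeAbelianGroup.of (n, x) -
        FreeAbelianGroup.of (n, y)} ∪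
    {z | ∃ n x, (x ∈ Gm B (n + 1) ∨ x ∉ Gm B n) ∧ z = FreeAbelianGroup.of (n, x)})

/-- the associated Lie ring -/
abbrev LL : Type := FreeAbelianGroup (ℕ × B) ⧸ Rl B

/-- the classes of the elements -/
def cc (n : ℕ) (x : B) : LL B := QuotientAddGroup.mk (FreeAbelianGroup.of (n, x))

variable {B}

theorem gm_succ {n : ℕ} {x : B} (h : x ∈ Gm B (n + 1)) : x ∈ Gm B n :=
  Subgroup.lowerCentralSeries_antitone _ (Nat.le_succ n) h

theorem cc_mul {n : ℕ} {x y : B} (hx : x ∈ Gm B n) (hy : y ∈ Gm B n) :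
    cc B n (x * y) = cc B n x + cc B n y := by
  have h : (QuotientAddGroup.mk (FreeAbelianGroup.of (n, x * y) - FreeAbelianGroup.of (n, x) -
      FreeAbelianGroup.of (n, y)) : LL B) = 0 := by
    rw [QuotientAddGroup.eq_zero_iff]
    exact AddSubgroup.subset_closure (Or.inl ⟨n, x, y, hx, hy, rfl⟩)
  have h2 : cc B n (x * y) - cc B n x - cc B n y = 0 := h
  rw [sub_sub, sub_eq_zero] at h2
  exact h2

theorem cc_zero {n : ℕ} {x : B} (hx : x ∈ Gm B (n + 1)) : cc B n x = 0 := by
  unfold cc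
  rw [QuotientAddGroup.eq_zero_iff]
  exact AddSubgroup.subset_closure (Or.inr ⟨n, x, Or.inl hx, rfl⟩)

theorem cc_junk {n : ℕ} {x : B} (hx : x ∉ Gm B n) : cc B n x = 0 := by
  unfold cc
  rw [QuotientAddGroup.eq_zero_iff]
  exact AddSubgroup.subset_closure (Or.inr ⟨n, x, Or.inr hx, rfl⟩)

theorem cc_one (n : ℕ) : cc B n (1 : B) = 0 := cc_zero (one_mem _)

theorem cc_inv {n : ℕ} {x : B} (hx : x ∈ Gm B n) : cc B n x⁻¹ = - cc B n x := by
  have h := cc_mul hx (inv_mem hx)
  rw [mul_inv_cancel, cc_one] at h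
  exact (neg_eq_of_add_eq_zero_right h.symm).symm

theorem univ (A : Type) [AddCommGroup A] (f : ℕ → B → A)
    (h1 : ∀ n x y, x ∈ Gm B n → y ∈ Gm B n → f n (x * y) = f n x + f n y)
    (h2 : ∀ n x, x ∈ Gm B (n + 1) → f n x = 0) :
    ∃ F : LL B →+ A, ∀ n x, x ∈ Gm B n → F (cc B n x) = f n x := by
  classical
  let g : ℕ × B → A := fun p => if p.2 ∈ Gm B p.1 then f p.1 p.2 else 0
  let F0 : FreeAbelianGroup (ℕ × B) →+ A := FreeAbelianGroup.lift g
  have hF0 : ∀ p, F0 (FreeAbelianGroup.of p) = g p := fun p =>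
    FreeAbelianGroup.lift_apply_of _ _
  have hg : ∀ n x, x ∈ Gm B n → g (n, x) = f n x := fun n x hx => if_pos hx
  have hker : Rl B ≤ F0.ker := by
    rw [Rl, AddSubgroup.closure_le]
    rintro z (⟨n, x, y, hx, hy, rfl⟩ | ⟨n, x, hx, rfl⟩)
    · rw [SetLike.mem_coe, AddMonoidHom.mem_ker, map_sub, map_sub, hF0, hF0, hF0,
        hg n _ (mul_mem hx hy), hg n x hx, hg n y hy, h1 n x y hx hy]
      abel
    · rw [SetLike.mem_coe, AddMonoidHom.mem_ker, hF0]
      rcases hx with hx | hx
      · rw [hg n x (gm_succ hx), h2 n x hx]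
      · exact if_neg hx
  refine ⟨QuotientAddGroup.lift (Rl B) F0 hker, fun n x hx => ?_⟩
  exact (hF0 (n, x)).trans (hg n x hx)

theorem ind {P : LL B → Prop} (h : ∀ n x, x ∈ Gm B n → P (cc B n x)) (h0 : P 0)
    (hadd : ∀ u v, P u → P v → P (u + v)) (hneg : ∀ u, P u → P (-u)) (u : LL B) : P u := by
  obtain ⟨z, rfl⟩ := QuotientAddGroup.mk_surjective u
  induction z using FreeAbelianGroup.induction_on with
  | zero => exact h0
  | of p =>
    by_cases hp : p.2 ∈ Gm B p.1
    · exact h p.1 p.2 hp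
    · have h3 : (QuotientAddGroup.mk (FreeAbelianGroup.of p) : LL B) = 0 := cc_junk hp
      rw [h3]
      exact h0
  | neg p hp => exact hneg _ hp
  | add x y hx hy => exact hadd _ _ hx hy

theorem hom_ext {A : Type} [AddCommGroup A] {F F' : LL B →+ A}
    (h : ∀ n x, x ∈ Gm B n → F (cc B n x) = F' (cc B n x)) : F = F' := by
  ext1
  apply FreeAbelianGroup.lift_ext
  intro p
  by_cases hp : p.2 ∈ Gm B p.1
  · exact h p.1 p.2 hp
  · have h3 : (QuotientAddGroup.mk (FreeAbelianGroup.of p) : LL B) = 0 := cc_junk hp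
    change F (QuotientAddGroup.mk (FreeAbelianGroup.of p)) =
      F' (QuotientAddGroup.mk (FreeAbelianGroup.of p))
    rw [h3, map_zero, map_zero]

/-- the center as a commutative group -/
instance cenComm (Q : Type) [Group Q] : CommGroup (center Q) :=
  { (inferInstance : Group (center Q)) with
    mul_comm := fun a b => Subtype.ext ((mem_center_iff.mp b.2 a)) }

theorem cc_eq_zero (hA : S_LIEA) {n : ℕ} {x : B} (hx : x ∈ Gm B n) :
    cc B n x = 0 ↔ x ∈ Gm B (n + 1) := by
  refine ⟨fun h => ?_, cc_zero⟩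
  classical
  have hc : ∀ y : B, y ∈ Gm B n →
      (QuotientGroup.mk y : B ⧸ Gm B (n + 1)) ∈ center (B ⧸ Gm B (n + 1)) := by
    intro y hy
    rw [mem_center_iff]
    intro g
    obtain ⟨g, rfl⟩ := QuotientGroup.mk_surjective g
    have h1 := (hA B).1 n 0 y g hy (by trivial)
    rw [← QuotientGroup.mk_mul, ← QuotientGroup.mk_mul, QuotientGroup.eq]
    have h2 : (g * y)⁻¹ * (y * g) = (y⁻¹ * g⁻¹) * ⁅y, g⁆ * (y⁻¹ * g⁻¹)⁻¹ := by
      rw [commutatorElement_def]
      group
    rw [h2]
    exact Normal.conj_mem inferInstance _ h1 _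
  let f : ℕ → B → Additive (center (B ⧸ Gm B (n + 1))) := fun k y =>
    if h : k = n ∧ y ∈ Gm B n then Additive.ofMul ⟨QuotientGroup.mk y, hc y h.2⟩ else 0
  obtain ⟨F, hF⟩ := univ _ f (by
    intro k y z hy hz
    by_cases hk : k = n
    · subst hk
      simp only [f, dif_pos (show k = k ∧ y ∈ Gm B k from ⟨rfl, hy⟩),
        dif_pos (show k = k ∧ z ∈ Gm B k from ⟨rfl, hz⟩),
        dif_pos (show k = k ∧ y * z ∈ Gm B k from ⟨rfl, mul_mem hy hz⟩)]
      rfl
    · have h1 : ∀ t : B, f k t = 0 := fun t => dif_neg (fun h => hk h.1)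
      rw [h1 (y * z), h1 y, h1 z, add_zero]) (by
    intro k y hy
    by_cases hk : k = n
    · subst hk
      simp only [f, dif_pos (show k = k ∧ y ∈ Gm B k from ⟨rfl, gm_succ hy⟩)]
      have : (⟨QuotientGroup.mk y, hc y (gm_succ hy)⟩ : center (B ⧸ Gm B (k + 1))) = 1 := by
        apply Subtype.ext
        exact (QuotientGroup.eq_one_iff y).mpr hy
      rw [this]
      rfl
    · exact dif_neg (fun h => hk h.1))
  have h1 := hF n x hx
  rw [h, map_zero] at h1
  have h2 : f n x = Additive.ofMul ⟨QuotientGroup.mk x, hc x hx⟩ := dif_pos ⟨rfl, hx⟩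
  rw [h2] at h1
  have h3 : (⟨QuotientGroup.mk x, hc x hx⟩ : center (B ⧸ Gm B (n + 1))) = 1 :=
    (Additive.ofMul.injective h1.symm)
  have h4 := congrArg Subtype.val h3
  exact (QuotientGroup.eq_one_iff x).mp h4

theorem com_mem (hA : S_LIEA) {m n : ℕ} {x y : B} (hx : x ∈ Gm B m) (hy : y ∈ Gm B n) :
    ⁅x, y⁆ ∈ Gm B (m + n + 1) := (hA B).1 m n x y hx hy

theorem cc_congr {m n : ℕ} (h : m = n) (x : B) : cc B m x = cc B n x := by rw [h]

theorem ex_ad (hA : S_LIEA) {n : ℕ} {y : B} (hy : y ∈ Gm B n) :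
    ∃ F : LL B →+ LL B, ∀ m x, x ∈ Gm B m → F (cc B m x) = cc B (m + n + 1) ⁅x, y⁆ := by
  refine univ _ (fun m x => cc B (m + n + 1) ⁅x, y⁆) ?_ ?_
  · intro m x x' hx hx'
    have h1 := (hA B).2.1 m n x x' y hx hx' hy
    have e : ⁅x * x', y⁆ = (⁅x, y⁆ * ⁅x', y⁆) * ((⁅x, y⁆ * ⁅x', y⁆)⁻¹ * ⁅x * x', y⁆) := by group
    rw [e, cc_mul (mul_mem (com_mem hA hx hy) (com_mem hA hx' hy)) (gm_succ h1),
      cc_mul (com_mem hA hx hy) (com_mem hA hx' hy), cc_zero h1, add_zero]
  · intro m x hx
    have h1 := com_mem hA hx hy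
    rw [show m + 1 + n + 1 = m + n + 1 + 1 by omega] at h1
    exact cc_zero h1

open Classical in
/-- the bracket with a fixed homogeneous element -/
noncomputable def ad (hA : S_LIEA) (n : ℕ) (y : B) : LL B →+ LL B :=
  if h : y ∈ Gm B n then (ex_ad hA h).choose else 0

theorem ad_cc (hA : S_LIEA) {m n : ℕ} {x y : B} (hx : x ∈ Gm B m) (hy : y ∈ Gm B n) :
    ad hA n y (cc B m x) = cc B (m + n + 1) ⁅x, y⁆ := by
  unfold ad
  rw [dif_pos hy]
  exact (ex_ad hA hy).choose_spec m x hx

theorem ex_br (hA : S_LIEA) : ∃ β : LL B →+ (LL B →+ LL B), ∀ n y, y ∈ Gm B n →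
    β (cc B n y) = ad hA n y := by
  refine univ (LL B →+ LL B) (ad hA) ?_ ?_
  · intro n y z hy hz
    refine hom_ext fun m x hx => ?_
    rw [AddMonoidHom.add_apply, ad_cc hA hx (mul_mem hy hz), ad_cc hA hx hy, ad_cc hA hx hz]
    have h1 := (hA B).2.2.1 m n x y z hx hy hz
    have e : ⁅x, y * z⁆ = (⁅x, y⁆ * ⁅x, z⁆) * ((⁅x, y⁆ * ⁅x, z⁆)⁻¹ * ⁅x, y * z⁆) := by group
    rw [e, cc_mul (mul_mem (com_mem hA hx hy) (com_mem hA hx hz)) (gm_succ h1),
      cc_mul (com_mem hA hx hy) (com_mem hA hx hz), cc_zero h1, add_zero]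
  · intro n y hy
    refine hom_ext fun m x hx => ?_
    rw [ad_cc hA hx (gm_succ hy), AddMonoidHom.zero_apply]
    have h1 := com_mem hA hx hy
    rw [show m + (n + 1) + 1 = m + n + 1 + 1 by omega] at h1
    exact cc_zero h1

/-- the bracket -/
noncomputable def bk (hA : S_LIEA) (u v : LL B) : LL B := (ex_br hA).choose v u

theorem bk_cc (hA : S_LIEA) {m n : ℕ} {x y : B} (hx : x ∈ Gm B m) (hy : y ∈ Gm B n) :
    bk hA (cc B m x) (cc B n y) = cc B (m + n + 1) ⁅x, y⁆ := by
  unfold bk
  rw [(ex_br hA).choose_spec n y hy]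
  exact ad_cc hA hx hy

theorem bk_add_left (hA : S_LIEA) (u v w : LL B) : bk hA (u + v) w = bk hA u w + bk hA v w :=
  map_add _ _ _

theorem bk_add_right (hA : S_LIEA) (u v w : LL B) : bk hA u (v + w) = bk hA u v + bk hA u w := by
  unfold bk
  rw [map_add]
  rfl

theorem bk_zero_left (hA : S_LIEA) (w : LL B) : bk hA 0 w = 0 := map_zero _

theorem bk_zero_right (hA : S_LIEA) (w : LL B) : bk hA w 0 = 0 := by
  unfold bk
  rw [map_zero]
  rfl

theorem bk_neg_left (hA : S_LIEA) (u w : LL B) : bk hA (-u) w = - bk hA u w := map_neg _ _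

theorem bk_neg_right (hA : S_LIEA) (u w : LL B) : bk hA u (-w) = - bk hA u w := by
  unfold bk
  rw [map_neg]
  rfl

theorem bk_skew (hA : S_LIEA) (u v : LL B) : bk hA u v = - bk hA v u := by
  induction u using ind with
  | h m x hx =>
    induction v using ind with
    | h n y hy =>
      rw [bk_cc hA hx hy, bk_cc hA hy hx, ← commutatorElement_inv, cc_congr
        (show m + n + 1 = n + m + 1 by omega), cc_inv (com_mem hA hy hx)]
    | h0 => rw [bk_zero_left, bk_zero_right, neg_zero]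
    | hadd v w hv hw =>
      rw [bk_add_left, bk_add_right, hv, hw]
      abel
    | hneg v hv => rw [bk_neg_left, bk_neg_right, hv]
  | h0 => rw [bk_zero_left, bk_zero_right, neg_zero]
  | hadd v w hv hw =>
    rw [bk_add_left, bk_add_right, hv, hw]
    abel
  | hneg v hv => rw [bk_neg_left, bk_neg_right, hv]

theorem bk_self (hA : S_LIEA) (u : LL B) : bk hA u u = 0 := by
  induction u using ind with
  | h m x hx => rw [bk_cc hA hx hx, commutatorElement_self, cc_one]
  | h0 => exact bk_zero_left hA _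
  | hadd v w hv hw =>
    rw [bk_add_left, bk_add_right, bk_add_right, hv, hw, bk_skew hA w v]
    abel
  | hneg v hv => rw [bk_neg_left, bk_neg_right, hv, neg_zero, neg_zero]

theorem jac_cc (hA : S_LIEA) {l m n : ℕ} {x y z : B} (hx : x ∈ Gm B l) (hy : y ∈ Gm B m)
    (hz : z ∈ Gm B n) :
    bk hA (bk hA (cc B l x) (cc B m y)) (cc B n z) + bk hA (bk hA (cc B m y) (cc B n z))
      (cc B l x) + bk hA (bk hA (cc B n z) (cc B l x)) (cc B m y) = 0 := by
  have h1 := com_mem hA (com_mem hA hx hy) hz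
  have h2 := com_mem hA (com_mem hA hy hz) hx
  have h3 := com_mem hA (com_mem hA hz hx) hy
  rw [bk_cc hA hx hy, bk_cc hA hy hz, bk_cc hA hz hx, bk_cc hA (com_mem hA hx hy) hz,
    bk_cc hA (com_mem hA hy hz) hx, bk_cc hA (com_mem hA hz hx) hy,
    cc_congr (show l + m + 1 + n + 1 = l + m + n + 2 by omega),
    cc_congr (show m + n + 1 + l + 1 = l + m + n + 2 by omega),
    cc_congr (show n + l + 1 + m + 1 = l + m + n + 2 by omega)]
  rw [show l + m + 1 + n + 1 = l + m + n + 2 by omega] at h1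
  rw [show m + n + 1 + l + 1 = l + m + n + 2 by omega] at h2
  rw [show n + l + 1 + m + 1 = l + m + n + 2 by omega] at h3
  rw [← cc_mul h1 h2, ← cc_mul (mul_mem h1 h2) h3]
  exact cc_zero ((hA B).2.2.2 l m n x y z hx hy hz)

theorem jac (hA : S_LIEA) (u v w : LL B) :
    bk hA (bk hA u v) w + bk hA (bk hA v w) u + bk hA (bk hA w u) v = 0 := by
  induction u using ind with
  | h l x hx =>
    induction v using ind with
    | h m y hy =>
      induction w using ind with
      | h n z hz => exact jac_cc hA hx hy hz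
      | h0 => simp only [bk_zero_left, bk_zero_right, add_zero]
      | hadd s t hs ht =>
        simp only [bk_add_left, bk_add_right]
        calc _ = (bk hA (bk hA (cc B l x) (cc B m y)) s + bk hA (bk hA (cc B m y) s) (cc B l x) +
              bk hA (bk hA s (cc B l x)) (cc B m y)) +
              (bk hA (bk hA (cc B l x) (cc B m y)) t + bk hA (bk hA (cc B m y) t) (cc B l x) +
              bk hA (bk hA t (cc B l x)) (cc B m y)) := by abel
          _ = 0 := by rw [hs, ht, add_zero]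
      | hneg s hs =>
        simp only [bk_neg_left, bk_neg_right]
        rw [← neg_add, ← neg_add, hs, neg_zero]
    | h0 => simp only [bk_zero_left, bk_zero_right, add_zero]
    | hadd s t hs ht =>
      simp only [bk_add_left, bk_add_right]
      calc _ = (bk hA (bk hA (cc B l x) s) w + bk hA (bk hA s w) (cc B l x) +
            bk hA (bk hA w (cc B l x)) s) +
            (bk hA (bk hA (cc B l x) t) w + bk hA (bk hA t w) (cc B l x) +
            bk hA (bk hA w (cc B l x)) t) := by abel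
        _ = 0 := by rw [hs, ht, add_zero]
    | hneg s hs =>
      simp only [bk_neg_left, bk_neg_right]
      rw [← neg_add, ← neg_add, hs, neg_zero]
  | h0 => simp only [bk_zero_left, bk_zero_right, add_zero]
  | hadd s t hs ht =>
    simp only [bk_add_left, bk_add_right]
    calc _ = (bk hA (bk hA s v) w + bk hA (bk hA v w) s + bk hA (bk hA w s) v) +
          (bk hA (bk hA t v) w + bk hA (bk hA v w) t + bk hA (bk hA w t) v) := by abel
      _ = 0 := by rw [hs, ht, add_zero]
  | hneg s hs =>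
    simp only [bk_neg_left, bk_neg_right]
    rw [← neg_add, ← neg_add, hs, neg_zero]

/-- the Lie ring structure -/
noncomputable abbrev lieRing (hA : S_LIEA) (B : Type) [Group B] : LieRing (LL B) :=
  { (inferInstance : AddCommGroup (LL B)) with
    bracket := bk hA
    add_lie := bk_add_left hA
    lie_add := bk_add_right hA
    lie_self := bk_self hA
    leibniz_lie := by
      intro x y z
      have h := jac hA x y z
      rw [bk_skew hA (bk hA y z) x, bk_skew hA z x, bk_neg_left, bk_skew hA (bk hA x z) y,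
        neg_neg] at h
      change bk hA x (bk hA y z) = bk hA (bk hA x y) z + bk hA y (bk hA x z)
      rw [add_right_comm, add_neg_eq_zero] at h
      exact h.symm }

theorem t (hA : S_LIEA) : S_LIEB := by
  intro B _
  let I := lieRing hA B
  refine ⟨LL B, I, ⟨{
    c := cc B
    mul := fun n x y hx hy => cc_mul hx hy
    zero := fun n x hx => cc_eq_zero hA hx
    lie := fun m n x y hx hy => bk_cc hA hx hy
    span := ?_
    lift := fun A _ f h1 h2 => univ A f h1 h2 }⟩⟩
  rw [eq_top_iff]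
  intro u _
  induction u using ind with
  | h n x hx => exact AddSubgroup.subset_closure ⟨n, x, hx, rfl⟩
  | h0 => exact zero_mem _
  | hadd v w hv hw => exact add_mem (hv trivial) (hw trivial)
  | hneg v hv => exact neg_mem (hv trivial)

end Pool.Agent.Helper70.SG.LIEB
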